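import Mathlib

/-!
# The `Z`-versions of the compact-open, Isbell and strong Isbell topologies differ from them

Let `p` be a free ultrafilter on `ℕ`, `Z = {0, 1}` with the discrete topology and let `Y` be the
union of `ℕ`, a point `c` and points `e S` for the sets `S ∉ p`. A set `V ⊆ Y` is open if `e S ∈ V`
implies `c ∈ V` and that `S \ V` is finite. The clopen subsets of `Y` are the finite subsets of `ℕ`
and their complements, so `Y` is `Z`-compact and the set `{0}` is open in the three `Z`-versions. But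
the open cover of `Y` by the sets `{c}`, `{n}` and `{e S, c} ∪ S` shows that `{0}` is not open in the
strong Isbell topology: every finite union of its members misses some `n`, and then the clopen set
`{n}` gives a non-zero function near `0`.
-/

set_option autoImplicit false

namespace Pool.Agent.Results.MP_43be50_gt.VersionsDiffer

open Set Filter TopologicalSpace

section defs

variable (Y Z : Type) [TopologicalSpace Y] [TopologicalSpace Z]

/-- The sets `f⁻¹(U)` with `f : Y → Z` continuous and `U ⊆ Z` open. -/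
def OZ : Set (Set Y) := {V | ∃ (f : C(Y, Z)) (U : Set Z), IsOpen U ∧ V = f ⁻¹' U}

/-- The topology on `Y` with subbasis `OZ Y Z`. -/
abbrev tauZ : TopologicalSpace Y := generateFrom (OZ Y Z)

/-- The compact-open topology. -/
abbrev tco : TopologicalSpace C(Y, Z) :=
  generateFrom {s | ∃ (K : Set Y) (U : Set Z), IsCompact K ∧ IsOpen U ∧ s = {f : C(Y, Z) | f '' K ⊆ U}}

/-- The `Z`-compact-open topology. -/
abbrev tcoZ : TopologicalSpace C(Y, Z) :=
  generateFrom {s | ∃ (K : Set Y) (U : Set Z), @IsCompact Y (tauZ Y Z) K ∧ IsOpen U ∧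
    s = {f : C(Y, Z) | f '' K ⊆ U}}

/-- `H` is open in the Scott topology on the open subsets of `Y`. -/
def ScottOpen (H : Set (Set Y)) : Prop :=
  (∀ V ∈ H, IsOpen V) ∧ (∀ W ∈ H, ∀ V, IsOpen V → W ⊆ V → V ∈ H) ∧
    ∀ F : Set (Set Y), (∀ V ∈ F, IsOpen V) → ⋃₀ F ∈ H → ∃ G ⊆ F, G.Finite ∧ ⋃₀ G ∈ H

/-- `H` is open in the strong Scott topology. -/
def StrongScottOpen (H : Set (Set Y)) : Prop :=
  (∀ V ∈ H, IsOpen V) ∧ (∀ W ∈ H, ∀ V, IsOpen V → W ⊆ V → V ∈ H) ∧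
    ∀ F : Set (Set Y), (∀ V ∈ F, IsOpen V) → ⋃₀ F = univ → ∃ G ⊆ F, G.Finite ∧ ⋃₀ G ∈ H

/-- `H` is open in the topology `τ₁ᶻ`. -/
def Open1Z (H : Set (Set Y)) : Prop :=
  (∀ V ∈ H, IsOpen V) ∧ (∀ W ∈ H ∩ OZ Y Z, ∀ V, IsOpen V → W ⊆ V → V ∈ H) ∧
    ∀ F : Set (Set Y), F ⊆ OZ Y Z → ⋃₀ F ∈ H → ∃ G ⊆ F, G.Finite ∧ ⋃₀ G ∈ H

/-- `H` is open in the topology `τ₁,ₛᶻ`. -/
def Open1sZ (H : Set (Set Y)) : Prop :=
  (∀ V ∈ H, IsOpen V) ∧ (∀ W ∈ H ∩ OZ Y Z, ∀ V, IsOpen V → W ⊆ V → V ∈ H) ∧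
    ∀ F : Set (Set Y), F ⊆ OZ Y Z → ⋃₀ F = univ → ∃ G ⊆ F, G.Finite ∧ ⋃₀ G ∈ H

/-- The Isbell topology. -/
abbrev tIs : TopologicalSpace C(Y, Z) :=
  generateFrom {s | ∃ (H : Set (Set Y)) (U : Set Z), ScottOpen Y H ∧ IsOpen U ∧
    s = {f : C(Y, Z) | f ⁻¹' U ∈ H}}

/-- The strong Isbell topology. -/
abbrev tsIs : TopologicalSpace C(Y, Z) :=
  generateFrom {s | ∃ (H : Set (Set Y)) (U : Set Z), StrongScottOpen Y H ∧ IsOpen U ∧
    s = {f : C(Y, Z) | f ⁻¹' U ∈ H}}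

/-- The topology `t₁ᶻ`. -/
abbrev t1Z : TopologicalSpace C(Y, Z) :=
  generateFrom {s | ∃ (H : Set (Set Y)) (U : Set Z), Open1Z Y Z H ∧ IsOpen U ∧
    s = {f : C(Y, Z) | f ⁻¹' U ∈ H}}

/-- The topology `t₁,ₛᶻ`. -/
abbrev t1sZ : TopologicalSpace C(Y, Z) :=
  generateFrom {s | ∃ (H : Set (Set Y)) (U : Set Z), Open1sZ Y Z H ∧ IsOpen U ∧
    s = {f : C(Y, Z) | f ⁻¹' U ∈ H}}

theorem tIs_le_tco : tIs Y Z ≤ tco Y Z := by
  refine le_generateFrom ?_
  rintro s ⟨K, U, hK, hU, rfl⟩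
  refine isOpen_generateFrom_of_mem ⟨{V | IsOpen V ∧ K ⊆ V}, U, ⟨?_, ?_, ?_⟩, hU, ?_⟩
  · exact fun V hV => hV.1
  · exact fun W hW V hV hWV => ⟨hV, hW.2.trans hWV⟩
  · intro F hF hFK
    obtain ⟨t, ht⟩ := hK.elim_finite_subcover (fun V : F => (V : Set Y)) (fun V => hF V V.2)
      (hFK.2.trans_eq sUnion_eq_iUnion)
    have hsub : ((fun V : F => (V : Set Y)) '' (t : Set F)) ⊆ F := by
      rintro _ ⟨V, _, rfl⟩
      exact V.2
    refine ⟨_, hsub, t.finite_toSet.image _, isOpen_sUnion fun V hV => hF V (hsub hV), ?_⟩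
    intro y hy
    obtain ⟨V, hV, hyV⟩ := mem_iUnion₂.1 (ht hy)
    exact ⟨V, ⟨V, hV, rfl⟩, hyV⟩
  · ext f
    constructor
    · intro h
      exact ⟨hU.preimage f.continuous, image_subset_iff.1 h⟩
    · intro h
      exact image_subset_iff.2 h.2

theorem tsIs_le_tIs : tsIs Y Z ≤ tIs Y Z := by
  refine le_generateFrom ?_
  rintro s ⟨H, U, ⟨h1, h2, h3⟩, hU, rfl⟩
  rcases H.eq_empty_or_nonempty with rfl | ⟨V, hV⟩
  · have : {f : C(Y, Z) | f ⁻¹' U ∈ (∅ : Set (Set Y))} = ∅ := by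
      ext f
      simp
    rw [this]
    exact @isOpen_empty _ (tsIs Y Z)
  · refine isOpen_generateFrom_of_mem ⟨H, U, ⟨h1, h2, ?_⟩, hU, rfl⟩
    intro F hF hFu
    refine h3 F hF ?_
    rw [hFu]
    exact h2 V hV univ isOpen_univ (subset_univ _)

end defs

/-- The underlying set of the space: `ℕ`, a point `c` and the points `e S`. -/
inductive Y : Type
  | nat (n : ℕ) : Y
  | c : Y
  | e (S : Set ℕ) (h : S ∉ hyperfilter ℕ) : Y

/-- The condition for a set to be open. -/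
def Op (V : Set Y) : Prop :=
  ∀ (S : Set ℕ) (h : S ∉ hyperfilter ℕ), Y.e S h ∈ V → Y.c ∈ V ∧ {n | n ∈ S ∧ Y.nat n ∉ V}.Finite

instance : TopologicalSpace Y where
  IsOpen := Op
  isOpen_univ := by
    intro S h _
    refine ⟨mem_univ _, ?_⟩
    simp
  isOpen_inter := by
    intro V W hV hW S h hS
    obtain ⟨h1, h2⟩ := hV S h hS.1
    obtain ⟨h3, h4⟩ := hW S h hS.2
    refine ⟨⟨h1, h3⟩, (h2.union h4).subset ?_⟩
    rintro n ⟨hn, hn2⟩
    by_cases h5 : Y.nat n ∈ V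
    · exact Or.inr ⟨hn, fun h6 => hn2 ⟨h5, h6⟩⟩
    · exact Or.inl ⟨hn, h5⟩
  isOpen_sUnion := by
    rintro F hF S h ⟨V, hV, hS⟩
    obtain ⟨h1, h2⟩ := hF V hV S h hS
    refine ⟨⟨V, hV, h1⟩, h2.subset ?_⟩
    rintro n ⟨hn, hn2⟩
    exact ⟨hn, fun h3 => hn2 ⟨V, hV, h3⟩⟩

theorem isOpen_iff (V : Set Y) : IsOpen V ↔ Op V := Iff.rfl

/-- Every open set with open complement which contains `c` contains all points but finitely many
elements of `ℕ`. -/
theorem clopen_c {V : Set Y} (hV : IsOpen V) (hV' : IsOpen Vᶜ) (hc : Y.c ∈ V) : Vᶜ.Finite := by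
  rw [isOpen_iff] at hV hV'
  have he : ∀ (S : Set ℕ) (h : S ∉ hyperfilter ℕ), Y.e S h ∈ V := by
    intro S h
    by_contra h1
    exact (hV' S h h1).1 hc
  have hT : {n | Y.nat n ∉ V}.Finite := by
    by_contra hinf
    rw [← Set.Infinite, ← Set.infinite_coe_iff] at hinf
    -- split the infinite set into two infinite sets
    obtain ⟨A, B, hA, hB, hAB, hdis⟩ : ∃ A B : Set ℕ, A.Infinite ∧ B.Infinite ∧
        A ∪ B ⊆ {n | Y.nat n ∉ V} ∧ Disjoint A B := by
      let φ : ℕ ↪ {n | Y.nat n ∉ V} := Infinite.natEmbedding _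
      refine ⟨range fun k => (φ (2 * k) : ℕ), range fun k => (φ (2 * k + 1) : ℕ), ?_, ?_, ?_, ?_⟩
      · refine infinite_range_of_injective fun a b h => ?_
        have := φ.injective (Subtype.ext h)
        omega
      · refine infinite_range_of_injective fun a b h => ?_
        have := φ.injective (Subtype.ext h)
        omega
      · rintro _ (⟨k, rfl⟩ | ⟨k, rfl⟩)
        · exact (φ (2 * k)).2
        · exact (φ (2 * k + 1)).2
      · rw [Set.disjoint_left]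
        rintro _ ⟨a, rfl⟩ ⟨b, hb⟩
        have := φ.injective (Subtype.ext hb)
        omega
    have key : ∀ A : Set ℕ, A.Infinite → A ⊆ {n | Y.nat n ∉ V} → A ∈ hyperfilter ℕ := by
      intro A hA hAV
      by_contra hAp
      have h1 := (hV A hAp (he A hAp)).2
      refine hA (h1.subset fun n hn => ⟨hn, hAV hn⟩)
    have h1 := key A hA (subset_union_left.trans hAB)
    have h2 := key B hB (subset_union_right.trans hAB)
    have h3 := inter_mem h1 h2
    rw [disjoint_iff_inter_eq_empty.1 hdis] at h3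
    exact empty_notMem _ h3
  refine (hT.image Y.nat).subset ?_
  rintro (n | _ | ⟨S, h⟩) hy
  · exact ⟨n, hy, rfl⟩
  · exact absurd hc hy
  · exact absurd (he S h) hy

/-- Every cover of `Y` by sets `f⁻¹(U)` with values in `Bool` has a finite subcover. -/
theorem finite_subcover {F : Set (Set Y)} (hF : F ⊆ OZ Y Bool) (hFu : ⋃₀ F = univ) :
    ∃ G ⊆ F, G.Finite ∧ ⋃₀ G = univ := by
  have hc : Y.c ∈ ⋃₀ F := by rw [hFu]; exact mem_univ _
  obtain ⟨V, hVF, hcV⟩ := hc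
  obtain ⟨f, U, hU, rfl⟩ := hF hVF
  have hfin : (f ⁻¹' U)ᶜ.Finite := by
    refine clopen_c (hU.preimage f.continuous) ?_ hcV
    rw [← preimage_compl]
    exact (isOpen_discrete Uᶜ).preimage f.continuous
  have hch : ∀ y : Y, ∃ W ∈ F, y ∈ W := by
    intro y
    have : y ∈ ⋃₀ F := by rw [hFu]; exact mem_univ _
    exact this
  choose W hWF hyW using hch
  refine ⟨insert (f ⁻¹' U) (W '' (f ⁻¹' U)ᶜ), ?_, (hfin.image W).insert _, ?_⟩
  · rintro _ (rfl | ⟨y, _, rfl⟩)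
    · exact hVF
    · exact hWF y
  · rw [eq_univ_iff_forall]
    intro y
    by_cases hy : y ∈ f ⁻¹' U
    · exact ⟨_, mem_insert _ _, hy⟩
    · exact ⟨W y, mem_insert_of_mem _ ⟨y, hy, rfl⟩, hyW y⟩

/-- The zero function. -/
def zero : C(Y, Bool) := ContinuousMap.const Y false

theorem zero_eq (H : Set (Set Y)) (hH : ∀ V, V ∈ H ↔ V = univ) :
    ({zero} : Set C(Y, Bool)) = {f : C(Y, Bool) | f ⁻¹' {false} ∈ H} := by
  ext f
  rw [mem_singleton_iff, mem_ofPred_eq, hH, eq_univ_iff_forall]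
  constructor
  · rintro rfl y
    rfl
  · intro h
    ext y
    exact h y

theorem zero_open_tcoZ : @IsOpen _ (tcoZ Y Bool) {zero} := by
  refine isOpen_generateFrom_of_mem ⟨univ, {false}, ?_, isOpen_discrete _, ?_⟩
  · let _ := tauZ Y Bool
    refine isCompact_generateFrom rfl ?_
    intro P hP hPu
    obtain ⟨G, hGP, hG, hGu⟩ := finite_subcover hP (univ_subset_iff.1 hPu)
    exact ⟨G, hGP, hG, hGu.ge⟩
  · ext f
    rw [mem_singleton_iff, mem_ofPred_eq]
    constructor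
    · rintro rfl
      rintro _ ⟨y, _, rfl⟩
      rfl
    · intro h
      ext y
      exact h ⟨y, mem_univ _, rfl⟩

theorem zero_open_t1Z : @IsOpen _ (t1Z Y Bool) {zero} := by
  refine isOpen_generateFrom_of_mem ⟨{univ}, {false}, ⟨?_, ?_, ?_⟩, isOpen_discrete _,
    zero_eq _ fun V => mem_singleton_iff⟩
  · rintro _ rfl
    exact isOpen_univ
  · rintro W ⟨hW, _⟩ V _ hWV
    rw [mem_singleton_iff] at hW ⊢
    rw [hW] at hWV
    exact univ_subset_iff.1 hWV
  · intro F hF hFu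
    exact finite_subcover hF hFu

theorem zero_open_t1sZ : @IsOpen _ (t1sZ Y Bool) {zero} := by
  refine isOpen_generateFrom_of_mem ⟨{univ}, {false}, ⟨?_, ?_, ?_⟩, isOpen_discrete _,
    zero_eq _ fun V => mem_singleton_iff⟩
  · rintro _ rfl
    exact isOpen_univ
  · rintro W ⟨hW, _⟩ V _ hWV
    rw [mem_singleton_iff] at hW ⊢
    rw [hW] at hWV
    exact univ_subset_iff.1 hWV
  · intro F hF hFu
    exact finite_subcover hF hFu

/-- The open cover which shows that `{0}` is not open in the strong Isbell topology. -/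
def cover : Set (Set Y) :=
  {V | V = {Y.c}} ∪ {V | ∃ n, V = {Y.nat n}} ∪
    {V | ∃ (S : Set ℕ) (h : S ∉ hyperfilter ℕ), V = {Y.e S h, Y.c} ∪ Y.nat '' S}

theorem cover_open : ∀ V ∈ cover, IsOpen V := by
  rintro V ((rfl | ⟨n, rfl⟩) | ⟨S, h, rfl⟩)
  · intro S h hS
    exact absurd hS (by simp)
  · intro S h hS
    exact absurd hS (by simp)
  · intro T hT hTV
    have h1 : Y.e T hT = Y.e S h := by
      rcases hTV with (h1 | h1) | ⟨n, _, h1⟩
      · exact h1
      · exact absurd h1 (by simp)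
      · exact absurd h1 (by simp)
    have h2 : T = S := by
      injection h1
    subst h2
    refine ⟨Or.inl (Or.inr rfl), ?_⟩
    have : {n | n ∈ T ∧ Y.nat n ∉ ({Y.e T h, Y.c} ∪ Y.nat '' T : Set Y)} = ∅ := by
      rw [eq_empty_iff_forall_notMem]
      rintro n ⟨hn, hn2⟩
      exact hn2 (Or.inr ⟨n, hn, rfl⟩)
    rw [this]
    exact finite_empty

theorem cover_univ : ⋃₀ cover = univ := by
  rw [eq_univ_iff_forall]
  rintro (n | _ | ⟨S, h⟩)
  · exact ⟨{Y.nat n}, Or.inl (Or.inr ⟨n, rfl⟩), rfl⟩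
  · exact ⟨{Y.c}, Or.inl (Or.inl rfl), rfl⟩
  · exact ⟨_, Or.inr ⟨S, h, rfl⟩, Or.inl (Or.inl rfl)⟩

theorem cover_trace : ∀ V ∈ cover, {n | Y.nat n ∈ V} ∉ hyperfilter ℕ := by
  rintro V ((rfl | ⟨n, rfl⟩) | ⟨S, h, rfl⟩)
  · have : {n | Y.nat n ∈ ({Y.c} : Set Y)} = ∅ := by
      ext n
      simp
    rw [this]
    exact empty_notMem _
  · have : {m | Y.nat m ∈ ({Y.nat n} : Set Y)} = {n} := by
      ext m
      simp
    rw [this]
    exact notMem_hyperfilter_of_finite (finite_singleton n)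
  · have : {m | Y.nat m ∈ ({Y.e S h, Y.c} ∪ Y.nat '' S : Set Y)} = S := by
      ext m
      simp
    rw [this]
    exact h

theorem clopen_nat (n : ℕ) : IsClopen ({Y.nat n} : Set Y) := by
  refine ⟨⟨?_⟩, cover_open _ (Or.inl (Or.inr ⟨n, rfl⟩))⟩
  intro S h _
  refine ⟨by simp, ?_⟩
  refine (finite_singleton n).subset ?_
  rintro m ⟨_, hm⟩
  rw [mem_compl_iff, not_not] at hm
  have h1 : Y.nat m = Y.nat n := hm
  injection h1

theorem zero_not_open : ¬ @IsOpen _ (tsIs Y Bool) {zero} := by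
  intro ho
  have hb := isTopologicalBasis_of_subbasis (t := tsIs Y Bool) rfl
  obtain ⟨_, ⟨𝓕, ⟨hfin, hsub⟩, rfl⟩, hz, hzs⟩ :=
    @IsTopologicalBasis.exists_subset_of_mem_open _ (tsIs Y Bool) _ hb _ _
    (mem_singleton zero) ho
  have hch : ∀ s : 𝓕, ∃ (H : Set (Set Y)) (U : Set Bool), StrongScottOpen Y H ∧
      s.1 = {f : C(Y, Bool) | f ⁻¹' U ∈ H} := by
    rintro ⟨s, hs⟩
    obtain ⟨H, U, hH, _, h⟩ := hsub hs
    exact ⟨H, U, hH, h⟩
  choose H U hH hs using hch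
  have hch2 : ∀ s : 𝓕, ∃ G ⊆ cover, G.Finite ∧ ⋃₀ G ∈ H s :=
    fun s => (hH s).2.2 cover cover_open cover_univ
  choose G hG hGfin hGH using hch2
  have : Finite 𝓕 := hfin
  set G' : Set (Set Y) := ⋃ s, G s with hG'
  have hG'fin : G'.Finite := finite_iUnion hGfin
  have hG'sub : G' ⊆ cover := iUnion_subset hG
  have hW : IsOpen (⋃₀ G') := isOpen_sUnion fun V hV => cover_open V (hG'sub hV)
  have hWH : ∀ s, ⋃₀ G' ∈ H s := fun s =>
    (hH s).2.1 _ (hGH s) _ hW (sUnion_subset_sUnion (subset_iUnion G s))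
  obtain ⟨n, hn⟩ : ∃ n, Y.nat n ∉ ⋃₀ G' := by
    by_contra hall
    push Not at hall
    have h1 : (⋃ V ∈ G', {n | Y.nat n ∈ V}) ∈ hyperfilter ℕ := by
      have : (⋃ V ∈ G', {n | Y.nat n ∈ V}) = univ := by
        rw [eq_univ_iff_forall]
        intro n
        obtain ⟨V, hV, hn⟩ := hall n
        exact mem_biUnion hV hn
      rw [this]
      exact univ_mem
    rw [Ultrafilter.finite_biUnion_mem_iff hG'fin] at h1
    obtain ⟨V, hV, h2⟩ := h1
    exact cover_trace V (hG'sub hV) h2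
  let f : C(Y, Bool) := ⟨({Y.nat n} : Set Y).boolIndicator,
    (continuous_boolIndicator_iff_isClopen _).2 (clopen_nat n)⟩
  have hf : ∀ y, y ≠ Y.nat n → f y = false := by
    intro y hy
    exact (Set.notMem_iff_boolIndicator _ _).1 hy
  have hfn : f (Y.nat n) = true := (Set.mem_iff_boolIndicator _ _).1 (mem_singleton _)
  have hfz : f ∈ ({zero} : Set C(Y, Bool)) := by
    apply hzs
    rw [mem_sInter]
    intro s hs𝓕
    have h1 := hs ⟨s, hs𝓕⟩
    have h2 : zero ∈ s := hz s hs𝓕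
    simp only at h1
    rw [h1] at h2 ⊢
    have hopen : IsOpen (f ⁻¹' U ⟨s, hs𝓕⟩) := (isOpen_discrete _).preimage f.continuous
    by_cases hU : false ∈ U ⟨s, hs𝓕⟩
    · refine (hH ⟨s, hs𝓕⟩).2.1 _ (hWH ⟨s, hs𝓕⟩) _ hopen ?_
      intro y hy
      have : y ≠ Y.nat n := fun h => hn (h ▸ hy)
      show f y ∈ U ⟨s, hs𝓕⟩
      rw [hf y this]
      exact hU
    · refine (hH ⟨s, hs𝓕⟩).2.1 _ h2 _ hopen ?_
      intro y hy
      exact absurd hy hU
  rw [mem_singleton_iff] at hfz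
  rw [hfz] at hfn
  exact Bool.false_ne_true hfn

/-- There are topological spaces `Y` and `Z` such that the `Z`-versions of the compact-open, the
Isbell and the strong Isbell topologies on `C(Y, Z)` are all different from these topologies. -/
theorem result : ∃ (Y Z : Type) (_ : TopologicalSpace Y) (_ : TopologicalSpace Z),
    tcoZ Y Z ≠ tco Y Z ∧ t1Z Y Z ≠ tIs Y Z ∧ t1sZ Y Z ≠ tsIs Y Z := by
  have h1 : ¬ @IsOpen _ (tIs Y Bool) {zero} := fun h => zero_not_open (tsIs_le_tIs Y Bool _ h)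
  have h2 : ¬ @IsOpen _ (tco Y Bool) {zero} := fun h => h1 (tIs_le_tco Y Bool _ h)
  refine ⟨Y, Bool, inferInstance, inferInstance, ?_, ?_, ?_⟩
  · intro h
    exact h2 (h ▸ zero_open_tcoZ)
  · intro h
    exact h1 (h ▸ zero_open_t1Z)
  · intro h
    exact zero_not_open (h ▸ zero_open_t1sZ)

end Pool.Agent.Results.MP_43be50_gt.VersionsDiffer
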